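import Pool.Agent.Helper58.DM.Goals

/-!
# Packet M_ENT of project DM (MP_06d934_gt)
-/

set_option autoImplicit false

namespace Pool.Agent.Helper86.DM

open Matrix Pool.Agent.Helper58.DH Pool.Agent.Helper58.DM

lemma cls_symm (A B : Fin 5) : cls A B = cls B A := by
  revert A B
  decide

lemma cls_bar (A B : Fin 5) : cls (bar5 A) (bar5 B) = cls A B := by
  revert A B
  decide

lemma bar5_inj (A B : Fin 5) : bar5 A = bar5 B ↔ A = B := by
  revert A B
  decide

section

variable {I : Type} [Fintype I] [DecidableEq I] (F : Frame I)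

lemma star_entry {X : Matrix I I ℂ} (h : Xᴴ = -X) (i j : I) : star (X i j) = -X j i := by
  have := congrFun (congrFun h j) i
  rwa [conjTranspose_apply, neg_apply] at this

lemma of_star_entry {X : Matrix I I ℂ} (h : ∀ i j, star (X i j) = -X j i) : Xᴴ = -X := by
  ext i j
  rw [conjTranspose_apply, neg_apply]
  exact h j i

lemma SS_mul (X : Matrix I I ℂ) (i j : I) : (SS F * X) i j = (F.sg i : ℂ) * X (F.bar i) j := by
  rw [mul_apply, Finset.sum_eq_single (F.bar i)]
  · simp [SS]
  · intro l _ hl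
    simp [SS, hl]
  · intro h
    exact absurd (Finset.mem_univ _) h

lemma mul_SS (X : Matrix I I ℂ) (i j : I) :
    (Xᵀ * SS F) i j = X (F.bar j) i * (F.sg (F.bar j) : ℂ) := by
  rw [mul_apply, Finset.sum_eq_single (F.bar j)]
  · simp [SS, F.bar_bar]
  · intro l _ hl
    have : j ≠ F.bar l := by
      rintro rfl
      exact hl (F.bar_bar l).symm
    simp [SS, this]
  · intro h
    exact absurd (Finset.mem_univ _) h

lemma sgC (i : I) : (F.sg i : ℂ) * (F.sg i : ℂ) = 1 := by
  rw [← Complex.ofReal_mul, F.sg_sq, Complex.ofReal_one]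

lemma etaC : (F.η : ℂ) * (F.η : ℂ) = 1 := by
  rw [← Complex.ofReal_mul, F.η_sq, Complex.ofReal_one]

lemma th_iff (X : Matrix I I ℂ) : Xᵀ * SS F + SS F * X = 0 ↔ Th F X := by
  constructor
  · intro h i j
    have h1 := congrFun (congrFun h (F.bar i)) j
    rw [Matrix.add_apply, SS_mul, mul_SS, F.bar_bar, Matrix.zero_apply, F.sg_bar, F.sg_bar] at h1
    push_cast at h1 ⊢
    have h2 := sgC F j
    have h3 := etaC F
    have h4 : X (F.bar j) (F.bar i) * (((F.η : ℂ) * F.η) * ((F.sg j : ℂ) * F.sg j)) +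
        ((F.η : ℂ) * F.η) * ((F.sg i : ℂ) * F.sg j) * X i j = 0 := by
      linear_combination ((F.η : ℂ) * F.sg j) * h1
    rw [h2, h3] at h4
    linear_combination h4
  · intro h
    ext i j
    rw [Matrix.add_apply, SS_mul, mul_SS, Matrix.zero_apply]
    have h1 := h (F.bar i) j
    rw [F.bar_bar, F.sg_bar] at h1
    rw [h1, F.sg_bar]
    push_cast
    have h2 := sgC F j
    have h3 := etaC F
    linear_combination (-(F.sg i : ℂ) * X (F.bar i) j) * h3 * 1 -
      ((F.sg i : ℂ) * X (F.bar i) j) * ((F.η : ℂ) * F.η) * h2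


lemma real_sum (κ : I → I → ℝ) (hκ : ∀ i j, κ i j = κ j i) {X Y : Matrix I I ℂ}
    (hX : Xᴴ = -X) (hY : Yᴴ = -Y) :
    (((∑ i, ∑ j, (κ i j : ℂ) * (X i j * Y j i)).re : ℝ) : ℂ) =
      ∑ i, ∑ j, (κ i j : ℂ) * (X i j * Y j i) := by
  rw [← Complex.conj_eq_iff_re, map_sum, Finset.sum_comm]
  refine Finset.sum_congr rfl fun i _ => ?_
  rw [map_sum]
  refine Finset.sum_congr rfl fun j _ => ?_
  have h1 : (starRingEnd ℂ) (X i j) = -X j i := star_entry hX i j
  have h2 : (starRingEnd ℂ) (Y j i) = -Y i j := star_entry hY j i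
  rw [map_mul, map_mul, h1, h2, Complex.conj_ofReal, hκ i j]
  ring

lemma trace_mul (X Y : Matrix I I ℂ) : (X * Y).trace = ∑ i, ∑ j, X i j * Y j i := by
  unfold Matrix.trace
  refine Finset.sum_congr rfl fun i _ => ?_
  rw [Matrix.diag_apply, Matrix.mul_apply]

lemma B_eq {X Y : Matrix I I ℂ} (hX : Xᴴ = -X) (hY : Yᴴ = -Y) :
    ((B F X Y : ℝ) : ℂ) = -(kk F : ℂ) * ∑ i, ∑ j, X i j * Y j i := by
  have h := real_sum (fun _ _ => (1 : ℝ)) (fun _ _ => rfl) hX hY
  simp only [Complex.ofReal_one, one_mul] at h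
  unfold B
  rw [trace_mul]
  push_cast
  rw [h]
  ring

lemma trace_comp (c : Fin 6) (X Y : Matrix I I ℂ) :
    (comp F c X * comp F c Y).trace =
      ∑ i, ∑ j, (((if cls (F.bl i) (F.bl j) = some c then 1 else 0 : ℝ)) : ℂ) *
        (X i j * Y j i) := by
  rw [trace_mul]
  refine Finset.sum_congr rfl fun i _ => Finset.sum_congr rfl fun j _ => ?_
  unfold Pool.Agent.Helper58.DM.comp
  rw [cls_symm (F.bl j) (F.bl i)]
  by_cases h : cls (F.bl i) (F.bl j) = some c
  · simp [h]
  · simp [h]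

lemma xx_eq (w : Fin 6 → ℝ) (i j : I) :
    xx F w i j = ∑ c, w c * (if cls (F.bl i) (F.bl j) = some c then 1 else 0 : ℝ) := by
  unfold xx
  cases h : cls (F.bl i) (F.bl j) with
  | none => simp
  | some d =>
    simp only [Option.elim, Option.some.injEq]
    rw [Finset.sum_eq_single d]
    · simp
    · intro c _ hc
      rw [if_neg (Ne.symm hc), mul_zero]
    · intro h2
      exact absurd (Finset.mem_univ _) h2

lemma gx_eq (w : Fin 6 → ℝ) {X Y : Matrix I I ℂ} (hX : Xᴴ = -X) (hY : Yᴴ = -Y) :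
    ((gx F w X Y : ℝ) : ℂ) = Gc F w X Y := by
  have hB : ∀ c, ((B F (comp F c X) (comp F c Y) : ℝ) : ℂ) = -(kk F : ℂ) *
      ∑ i, ∑ j, (((if cls (F.bl i) (F.bl j) = some c then 1 else 0 : ℝ)) : ℂ) *
        (X i j * Y j i) := by
    intro c
    have h := real_sum (fun i j => (if cls (F.bl i) (F.bl j) = some c then 1 else 0 : ℝ))
      (fun i j => by rw [cls_symm]) hX hY
    unfold B
    rw [trace_comp]
    push_cast at h ⊢
    rw [h]
    ring
  unfold gx Gc
  push_cast
  simp only [hB]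
  have h1 : ∀ i j, ((xx F w i j : ℝ) : ℂ) * (X i j * Y j i) =
      ∑ c, (w c : ℂ) * ((((if cls (F.bl i) (F.bl j) = some c then 1 else 0 : ℝ)) : ℂ) *
        (X i j * Y j i)) := by
    intro i j
    rw [xx_eq, Complex.ofReal_sum, Finset.sum_mul]
    refine Finset.sum_congr rfl fun c _ => ?_
    rw [Complex.ofReal_mul]
    ring
  simp only [h1]
  rw [Finset.sum_congr rfl fun i (_ : i ∈ Finset.univ) => Finset.sum_comm, Finset.sum_comm,
    Finset.mul_sum]
  refine Finset.sum_congr rfl fun c _ => ?_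
  rw [Finset.mul_sum, Finset.mul_sum, Finset.mul_sum]
  refine Finset.sum_congr rfl fun i _ => ?_
  rw [Finset.mul_sum, Finset.mul_sum, Finset.mul_sum]
  refine Finset.sum_congr rfl fun j _ => ?_
  ring

lemma fm_iff (hk : 0 < kk F) (X : Matrix I I ℂ) :
    X ∈ fm F ↔ (Xᴴ = -X ∧ Th F X) ∧ Off F X := by
  have hfg : ∀ Z, Z ∈ fg F ↔ Zᴴ = -Z ∧ Th F Z := fun Z => and_congr_right fun _ => th_iff F Z
  constructor
  · rintro ⟨hX, hB⟩
    have hX' := (hfg X).1 hX
    refine ⟨hX', ?_⟩
    set Y : Matrix I I ℂ := fun i j => if F.bl i = F.bl j then X i j else 0 with hY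
    have hY1 : Yᴴ = -Y := by
      apply of_star_entry
      intro i j
      simp only [hY]
      by_cases h : F.bl i = F.bl j
      · rw [if_pos h, if_pos h.symm]
        exact star_entry hX'.1 i j
      · rw [if_neg h, if_neg (Ne.symm h)]
        simp
    have hY2 : Th F Y := by
      intro i j
      simp only [hY]
      have hb : F.bl (F.bar j) = F.bl (F.bar i) ↔ F.bl i = F.bl j := by
        rw [F.bl_bar, F.bl_bar, bar5_inj]
        exact eq_comm
      by_cases h : F.bl i = F.bl j
      · rw [if_pos h, if_pos (hb.2 h)]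
        exact hX'.2 i j
      · rw [if_neg h, if_neg (fun h2 => h (hb.1 h2)), mul_zero]
    have hYk : Y ∈ fk F := ⟨(hfg Y).2 ⟨hY1, hY2⟩, fun i j h => if_neg h⟩
    have h0 := hB Y hYk
    have h1 : ((X * Y).trace).re = 0 := by
      unfold B at h0
      have : kk F * ((X * Y).trace).re = 0 := by linarith
      exact (mul_eq_zero.1 this).resolve_left hk.ne'
    have h2 : ∀ i j, (X i j * Y j i).re =
        -(if F.bl i = F.bl j then Complex.normSq (X i j) else 0) := by
      intro i j
      simp only [hY]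
      by_cases h : F.bl i = F.bl j
      · rw [if_pos h.symm, if_pos h]
        have h3 : X j i = -(starRingEnd ℂ) (X i j) := by
          have := star_entry hX'.1 i j
          have h4 : (starRingEnd ℂ) (X i j) = -X j i := this
          rw [h4, neg_neg]
        rw [h3, mul_neg, Complex.mul_conj]
        simp
      · rw [if_neg (Ne.symm h), if_neg h]
        simp
    rw [trace_mul, Complex.re_sum] at h1
    simp only [Complex.re_sum, h2, Finset.sum_neg_distrib, neg_eq_zero] at h1
    have hnn : ∀ i j, 0 ≤ (if F.bl i = F.bl j then Complex.normSq (X i j) else 0) := by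
      intro i j
      split_ifs
      · exact Complex.normSq_nonneg _
      · exact le_rfl
    intro i j h
    have h3 := (Finset.sum_eq_zero_iff_of_nonneg (fun i _ =>
      Finset.sum_nonneg fun j _ => hnn i j)).1 h1 i (Finset.mem_univ i)
    have h4 := (Finset.sum_eq_zero_iff_of_nonneg (fun j _ => hnn i j)).1 h3 j (Finset.mem_univ j)
    rw [if_pos h] at h4
    exact Complex.normSq_eq_zero.1 h4
  · rintro ⟨hX, hO⟩
    refine ⟨(hfg X).2 hX, fun Y hY => ?_⟩
    unfold B
    rw [trace_mul]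
    have : ∑ i, ∑ j, X i j * Y j i = 0 := by
      refine Finset.sum_eq_zero fun i _ => Finset.sum_eq_zero fun j _ => ?_
      by_cases h : F.bl i = F.bl j
      · rw [hO i j h, zero_mul]
      · rw [hY.2 j i (Ne.symm h), mul_zero]
    rw [this]
    simp

lemma mul_bar {X Y : Matrix I I ℂ} (hX : Th F X) (hY : Th F Y) (i j : I) :
    (X * Y) (F.bar j) (F.bar i) = ((F.sg i * F.sg j : ℝ) : ℂ) * (Y * X) i j := by
  rw [Matrix.mul_apply, Matrix.mul_apply, Finset.mul_sum]
  let e : I ≃ I := ⟨F.bar, F.bar, F.bar_bar, F.bar_bar⟩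
  rw [← Equiv.sum_comp e]
  refine Finset.sum_congr rfl fun l _ => ?_
  change X (F.bar j) (F.bar l) * Y (F.bar l) (F.bar i) = _
  rw [hX l j, hY i l]
  push_cast
  have h := sgC F l
  linear_combination ((F.sg i : ℂ) * F.sg j * (Y i l * X l j)) * h

end

theorem m_ent : Pool.Agent.Helper58.DM.M_ENT := by
  intro I _ _ F hk
  refine ⟨fun X => and_congr_right fun _ => th_iff F X, fm_iff F hk, fun w X Y hX hY =>
    gx_eq F w hX hY, fun X Y hX hY => B_eq F hX hY, ?_, ?_⟩
  · intro w i j
    constructor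
    · unfold xx
      rw [cls_symm]
    · unfold xx
      rw [F.bl_bar, F.bl_bar, cls_bar]
  · rintro X Y ⟨hX1, hX2⟩ ⟨hY1, hY2⟩
    constructor
    · rw [Ring.lie_def, conjTranspose_sub, conjTranspose_mul, conjTranspose_mul, hX1, hY1]
      simp
    · intro i j
      rw [Ring.lie_def, Matrix.sub_apply, Matrix.sub_apply, mul_bar F hX2 hY2, mul_bar F hY2 hX2]
      ring

end Pool.Agent.Helper86.DM
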